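import Pool.Agent.Q255.CV.Engine
import Pool.Agent.TH696.FA.OrthCount

/-!
# Every admissible class contains many representations that avoid few primes of large order
-/

set_option autoImplicit false
open Finset

namespace Pool.Agent.Q255.CV
open Pool.Agent.W65.FS Pool.Agent.TH696.FA

open Classical in
lemma bad_bound (n : ℕ) (Dv : ℝ) (hD : 1 ≤ Dv)
    (hdiv : ∀ M : ℕ, 1 ≤ M → M ≤ n → (M.divisors.card : ℝ) ≤ Dv) (D' : ℕ) (u' : Fin 4 → ℤ)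
    (P Q N : ℤ) (h : P ^ 2 + Q ^ 2 = N ^ 2) (hN : 1 < N) (hQ : IsCoprime Q N) (h2 : IsCoprime 2 N) (T : ℕ)
    (hdv : ∀ X ∈ repsc n D' u', N ^ T ∣ X 0 ∧ N ^ T ∣ X 3) (R : Finset ℕ) (m0 : ℕ) (hm0 : 0 < m0)
    (hR : ∀ p ∈ R, m0 ≤ orderOf (2 : ZMod p)) :
    (((repsc n D' u').filter (fun X => Bad R P Q N T X)).card : ℝ) ≤
      R.card * ((T + 1) ^ 2 * (8 * Dv ^ 2 * (((2 * Nat.sqrt n + 1) * (2 * Nat.sqrt n / m0 + 1) : ℕ) : ℝ))) := by
  set F : ℕ → ℕ × ℕ → Finset (Fin 4 → ℤ) := fun p e => (repsc n D' u').filter (fun X => e.1 < e.2 ∧ e.2 ≤ T ∧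
    ((orderOf (2 : ZMod p) : ℕ) : ℤ) ∣ Y0 P Q N T e.2 (X 0 / N ^ T) (X 3 / N ^ T) -
      Y0 P Q N T e.1 (X 0 / N ^ T) (X 3 / N ^ T)) with hF
  set W : ℝ := 8 * Dv ^ 2 * (((2 * Nat.sqrt n + 1) * (2 * Nat.sqrt n / m0 + 1) : ℕ) : ℝ) with hW
  have hW0 : 0 ≤ W := by positivity
  have hsub : (repsc n D' u').filter (fun X => Bad R P Q N T X) ⊆
      R.biUnion (fun p => (range (T + 1) ×ˢ range (T + 1)).biUnion (fun e => F p e)) := by
    intro X hX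
    rw [mem_filter] at hX
    obtain ⟨hX, p, hp, e, he, e', he', hlt, hd⟩ := hX
    rw [mem_biUnion]
    refine ⟨p, hp, ?_⟩
    rw [mem_biUnion]
    refine ⟨(e, e'), mem_product.2 ⟨he, he'⟩, ?_⟩
    rw [hF, mem_filter]
    exact ⟨hX, hlt, by rw [mem_range] at he'; omega, hd⟩
  have hFb : ∀ p ∈ R, ∀ e ∈ range (T + 1) ×ˢ range (T + 1), ((F p e).card : ℝ) ≤ W := by
    intro p hp e _
    have hm := hR p hp
    have hm1 : 0 < orderOf (2 : ZMod p) := by omega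
    by_cases hlt : e.1 < e.2 ∧ e.2 ≤ T
    · have hsq : ∀ X ∈ repsc n D' u', ∀ i ≤ T, Y0 P Q N T i (X 0 / N ^ T) (X 3 / N ^ T) ^ 2 ≤ (n : ℤ) := by
        intro X hX i hi
        have e1 := Y_sq P Q N h T i hi (X 0 / N ^ T) (X 3 / N ^ T)
        rw [Int.mul_ediv_cancel' (hdv X hX).1, Int.mul_ediv_cancel' (hdv X hX).2] at e1
        have e2 := ((mem_repsc n D' u' X).1 hX).1
        rw [Fin.sum_univ_four] at e2
        nlinarith [sq_nonneg (X 1), sq_nonneg (X 2), sq_nonneg (Y1 P Q N T i (X 0 / N ^ T) (X 3 / N ^ T))]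
      have h3 := cong_card n Dv hD hdiv (orderOf (2 : ZMod p)) hm1
        (fun X => Y0 P Q N T e.1 (X 0 / N ^ T) (X 3 / N ^ T)) (fun X => Y0 P Q N T e.2 (X 0 / N ^ T) (X 3 / N ^ T))
        (F p e) (fun X hX => ((mem_repsc n D' u' X).1 (mem_filter.1 hX).1).1)
        (fun X hX => hsq X (mem_filter.1 hX).1 _ (by omega)) (fun X hX => hsq X (mem_filter.1 hX).1 _ (by omega))
        (fun X hX => (mem_filter.1 hX).2.2.2)
        (by
          intro X hX X' hX' g1 g2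
          obtain ⟨t1, t2⟩ := Y_inj2 P Q N h hN hQ h2 T e.1 e.2 hlt.1 _ _ _ _ g1 g2
          have d1 := hdv X (mem_filter.1 hX).1
          have d2 := hdv X' (mem_filter.1 hX').1
          constructor
          · rw [← Int.mul_ediv_cancel' d1.1, ← Int.mul_ediv_cancel' d2.1, t1]
          · rw [← Int.mul_ediv_cancel' d1.2, ← Int.mul_ediv_cancel' d2.2, t2])
      refine h3.trans ?_
      rw [hW]
      apply mul_le_mul_of_nonneg_left _ (by positivity)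
      have : 2 * Nat.sqrt n / orderOf (2 : ZMod p) ≤ 2 * Nat.sqrt n / m0 := Nat.div_le_div_left hm hm0
      exact_mod_cast Nat.mul_le_mul_left _ (by omega)
    · have : F p e = ∅ := by
        rw [hF]
        apply Finset.filter_eq_empty_iff.2
        rintro X _ ⟨g1, g2, _⟩
        exact hlt ⟨g1, g2⟩
      rw [this]; simpa using hW0
  have h1 : ((R.biUnion (fun p => (range (T + 1) ×ˢ range (T + 1)).biUnion (fun e => F p e))).card : ℝ) ≤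
      R.card * ((T + 1) ^ 2 * W) := by
    have h4 : ∀ p ∈ R, (((range (T + 1) ×ˢ range (T + 1)).biUnion (fun e => F p e)).card : ℝ) ≤ (T + 1) ^ 2 * W := by
      intro p hp
      calc (((range (T + 1) ×ˢ range (T + 1)).biUnion (fun e => F p e)).card : ℝ)
          ≤ ((∑ e ∈ range (T + 1) ×ˢ range (T + 1), (F p e).card : ℕ) : ℝ) := by
            exact_mod_cast Finset.card_biUnion_le
        _ = ∑ e ∈ range (T + 1) ×ˢ range (T + 1), ((F p e).card : ℝ) := by push_cast; rfl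
        _ ≤ ∑ e ∈ range (T + 1) ×ˢ range (T + 1), W := Finset.sum_le_sum (hFb p hp)
        _ = (T + 1) ^ 2 * W := by
            rw [Finset.sum_const, card_product, card_range, nsmul_eq_mul]; push_cast; ring
    calc ((R.biUnion (fun p => (range (T + 1) ×ˢ range (T + 1)).biUnion (fun e => F p e))).card : ℝ)
        ≤ ((∑ p ∈ R, ((range (T + 1) ×ˢ range (T + 1)).biUnion (fun e => F p e)).card : ℕ) : ℝ) := by
          exact_mod_cast Finset.card_biUnion_le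
      _ = ∑ p ∈ R, (((range (T + 1) ×ˢ range (T + 1)).biUnion (fun e => F p e)).card : ℝ) := by push_cast; rfl
      _ ≤ ∑ p ∈ R, ((T + 1) ^ 2 * W) := Finset.sum_le_sum h4
      _ = _ := by rw [Finset.sum_const, nsmul_eq_mul]
  refine le_trans ?_ h1
  exact_mod_cast Finset.card_le_card hsub

open Classical in
/-- **every admissible class contains many representations avoiding `k` primes of large order** -/
theorem avoid (ε γ : ℝ) (hε : 0 < ε) (hγ : 0 < γ) (hγ2 : γ ≤ 1 / 2) : ∃ c : ℝ, 0 < c ∧ ∃ n0 : ℕ, ∀ (n D k : ℕ),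
    n0 ≤ n → Odd n → 0 < D → 4 ∣ D → (D : ℝ) ^ (101 * (k + 1)) ≤ (n : ℝ) ^ c → ∀ u : Fin 4 → ℤ, GoodG n D u →
    ∀ R : Finset ℕ, R.card ≤ k → (∀ p ∈ R, p.Prime ∧ (n : ℝ) ^ γ ≤ (orderOf (2 : ZMod p) : ℝ)) →
    (n : ℝ) ^ (1 - ε) ≤ (((orth n D u).filter (fun V => Av R V)).card : ℝ) := by
  set η : ℝ := min (ε / 8) (γ / 16) with hη
  have hη0 : 0 < η := by positivity
  have hη1 : η ≤ ε / 8 := min_le_left _ _
  have hη2 : η ≤ γ / 16 := min_le_right _ _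
  obtain ⟨δ, hδ, n1, hcc⟩ := class_count η hη0
  obtain ⟨C0, hC0, hdivb⟩ := Pool.Agent.H510R2.divisor_bound η hη0
  set C' : ℝ := max 1 C0 with hC'
  have hC1 : 1 ≤ C' := le_max_left _ _
  obtain ⟨n2, hn2⟩ := large_rp (3600 * C' ^ 2) (10 * η) (by positivity)
  obtain ⟨n3, hn3⟩ := large_rp 50 η hη0
  refine ⟨min δ η, by positivity, n1 + n2 + n3, ?_⟩
  intro n D k hn hno hD h4 hDn u hu R hRk hR
  have hn' : 1 ≤ n := hno.pos
  have hn1 : (1 : ℝ) ≤ n := by exact_mod_cast hn'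
  have hn0 : (0 : ℝ) < n := by linarith
  have hD4 : 4 ≤ D := Nat.le_of_dvd hD h4
  have hD4r : (4 : ℝ) ≤ D := by exact_mod_cast hD4
  have hDδ : (D : ℝ) ^ (101 * (k + 1)) ≤ (n : ℝ) ^ δ :=
    hDn.trans (Real.rpow_le_rpow_of_exponent_le hn1 (min_le_left _ _))
  have hDη : (D : ℝ) ^ (101 * (k + 1)) ≤ (n : ℝ) ^ η :=
    hDn.trans (Real.rpow_le_rpow_of_exponent_le hn1 (min_le_right _ _))
  -- `k + 1 ≤ n ^ η`
  have hk : ((k : ℝ) + 1) ≤ (n : ℝ) ^ η := by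
    have h1 : (k + 1 : ℕ) ≤ 2 ^ (k + 1) := (Nat.lt_two_pow_self).le
    have h2 : ((k + 1 : ℕ) : ℝ) ≤ (2 : ℝ) ^ (k + 1) := by exact_mod_cast h1
    push_cast at h2
    calc (k : ℝ) + 1 ≤ 2 ^ (k + 1) := h2
      _ ≤ (D : ℝ) ^ (k + 1) := by gcongr; linarith
      _ ≤ (D : ℝ) ^ (101 * (k + 1)) := pow_le_pow_right₀ (by linarith) (by omega)
      _ ≤ _ := hDη
  set N1 : ℕ := 41 * D ^ 2 + 10 * D + 1 with hN1
  set D2 : ℕ := D * N1 with hD2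
  set N2 : ℕ := 41 * D2 ^ 2 + 10 * D2 + 1 with hN2
  have hN1D := size_bound D hD4
  have hD2pos : 0 < D2 := Nat.mul_pos hD (by omega)
  have hD24 : 4 ≤ D2 := by
    calc 4 = 4 * 1 := by norm_num
      _ ≤ D * N1 := Nat.mul_le_mul hD4 (by omega)
  have hD2D : D2 ≤ D ^ 6 := by
    calc D2 ≤ D * D ^ 5 := Nat.mul_le_mul_left _ hN1D
      _ = D ^ 6 := by ring
  have hN2D : N2 ≤ D ^ 30 := by
    calc N2 ≤ D2 ^ 5 := size_bound D2 hD24
      _ ≤ (D ^ 6) ^ 5 := Nat.pow_le_pow_left hD2D 5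
      _ = D ^ 30 := by ring
  have h4D2 : 4 ∣ D2 := h4.mul_right _
  have r1 := rotData (D : ℤ) (by exact_mod_cast hD) (by exact_mod_cast h4)
  have r2 := rotData (D2 : ℤ) (by exact_mod_cast hD2pos) (by exact_mod_cast h4D2)
  have e1 : (41 * (D : ℤ) ^ 2 + 10 * D + 1) = (N1 : ℤ) := by rw [hN1]; push_cast; ring
  have e2 : (41 * (D2 : ℤ) ^ 2 + 10 * D2 + 1) = (N2 : ℤ) := by rw [hN2]; push_cast; ring
  rw [e1] at r1
  rw [e2] at r2
  have eD2 : (D2 : ℤ) = D * N1 := by rw [hD2]; push_cast; ring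
  have r2' : RotData (D : ℤ) (9 * (D2 : ℤ) ^ 2 + 10 * D2 + 1) (40 * (D2 : ℤ) ^ 2 + 8 * D2) (N2 : ℤ) := by
    refine ⟨r2.sq, r2.hN, r2.hP, r2.hQ, ?_, ?_, r2.cQ, r2.c2, ?_⟩
    · exact (Dvd.intro (N1 : ℤ) eD2.symm).trans r2.d1
    · exact (Dvd.intro (N1 : ℤ) eD2.symm).trans r2.d2
    · have := r2.cD
      rw [eD2] at this
      exact this.of_mul_left_left
  have c12 : IsCoprime (N1 : ℤ) (N2 : ℤ) := by
    have := r2.cD
    rw [eD2] at this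
    exact this.of_mul_left_right
  set T : ℕ := 5 * k + 4 with hT
  set D' : ℕ := D * (N1 ^ T) ^ 2 * N2 ^ 2 with hD'
  have hD'z : (D' : ℤ) = D * ((N1 : ℤ) ^ T) ^ 2 * (N2 : ℤ) ^ 2 := by rw [hD']; push_cast; ring
  obtain ⟨u', hu', hDu', d0, d3, d1, d2⟩ := good_class n D h4 u hu _ _ _ _ _ _ r1 r2' c12 T (by omega) D' hD'z
  have hD'pos : 0 < D' := by positivity
  have h4D' : 4 ∣ D' := by
    rw [hD']
    exact (h4.mul_right _).mul_right _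
  have hD'D : D' ≤ D ^ (101 * (k + 1)) := by
    calc D' ≤ D * ((D ^ 5) ^ T) ^ 2 * (D ^ 30) ^ 2 := by
          rw [hD']
          exact Nat.mul_le_mul (Nat.mul_le_mul_left _ (Nat.pow_le_pow_left (Nat.pow_le_pow_left hN1D _) 2))
            (Nat.pow_le_pow_left hN2D 2)
      _ = D ^ (50 * k + 101) := by
          rw [hT, ← pow_mul, ← pow_mul, ← pow_mul, ← pow_succ', ← pow_add]
          congr 1; ring
      _ ≤ D ^ (101 * (k + 1)) := Nat.pow_le_pow_right hD (by omega)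
  have hD'n : (D' : ℝ) ≤ (n : ℝ) ^ δ := by
    refine le_trans ?_ hDδ
    exact_mod_cast hD'D
  have h5 := hcc n D' (by omega) hno hD'pos h4D' hD'n u' hu'
  -- the order
  set m0 : ℕ := ⌈(n : ℝ) ^ γ⌉₊ with hm0
  have hnγ : 1 ≤ (n : ℝ) ^ γ := Real.one_le_rpow hn1 hγ.le
  have hm0' : (n : ℝ) ^ γ ≤ m0 := Nat.le_ceil _
  have hm0pos : 0 < m0 := Nat.ceil_pos.2 (by linarith)
  have hRm : ∀ p ∈ R, m0 ≤ orderOf (2 : ZMod p) := fun p hp => Nat.ceil_le.2 (hR p hp).2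
  have h6 := inj_count n D u _ _ _ _ _ _ r1 r2' k D' hD'z u' hDu' d0 d3 d1 d2 R hRk
    (fun p hp => ⟨(hR p hp).1, by have := hRm p hp; omega⟩)
  -- the divisor bound
  have hDv1 : 1 ≤ C' * (n : ℝ) ^ η := by
    have := Real.one_le_rpow hn1 hη0.le
    nlinarith
  have hdiv' : ∀ M : ℕ, 1 ≤ M → M ≤ n → (M.divisors.card : ℝ) ≤ C' * (n : ℝ) ^ η := by
    intro M hM hM2
    have hM2' : (M : ℝ) ≤ n := by exact_mod_cast hM2
    calc (M.divisors.card : ℝ) ≤ C0 * (M : ℝ) ^ η := hdivb M hM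
      _ ≤ C' * (n : ℝ) ^ η := by
          gcongr
          exact le_max_right _ _
  have hN1gt : (1 : ℤ) < (N1 : ℤ) := by
    have : 1 < N1 := by
      rw [hN1]
      have : 0 < 41 * D ^ 2 := by positivity
      omega
    exact_mod_cast this
  have hdv : ∀ X ∈ repsc n D' u', (N1 : ℤ) ^ T ∣ X 0 ∧ (N1 : ℤ) ^ T ∣ X 3 := by
    intro X hX
    rw [mem_repsc] at hX
    have dN : (N1 : ℤ) ^ T ∣ (D' : ℤ) := by rw [hD'z]; exact ⟨D * (N1 : ℤ) ^ T * (N2 : ℤ) ^ 2, by ring⟩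
    have dd : (N1 : ℤ) ^ T ∣ ((N1 : ℤ) ^ T) ^ 2 := dvd_pow_self _ two_ne_zero
    constructor
    · have e : X 0 = (X 0 - u' 0) + u' 0 := by ring
      rw [e]; exact dvd_add (dN.trans (hX.2 0)) (dd.trans d0)
    · have e : X 3 = (X 3 - u' 3) + u' 3 := by ring
      rw [e]; exact dvd_add (dN.trans (hX.2 3)) (dd.trans d3)
  have h7 := bad_bound n _ hDv1 hdiv' D' u' _ _ _ r1.sq hN1gt r1.cQ r1.c2 T hdv R m0 hm0pos hRm
  set G : ℝ := (((orth n D u).filter (fun V => Av R V)).card : ℝ) with hG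
  set Bd : ℝ := (((repsc n D' u').filter (fun X => Bad R (9 * (D : ℤ) ^ 2 + 10 * D + 1) (40 * (D : ℤ) ^ 2 + 8 * D)
    (N1 : ℤ) T X)).card : ℝ) with hBd
  have h8 : ((repsc n D' u').card : ℝ) ≤ (5 * k + 5) * 5 * G + Bd := by
    rw [hG, hBd]
    exact_mod_cast h6
  -- estimate of the bad ones
  set L : ℝ := (n : ℝ) ^ η with hL
  have hL1 : 1 ≤ L := Real.one_le_rpow hn1 hη0.le
  have hs : ((Nat.sqrt n : ℕ) : ℝ) ≤ (n : ℝ) ^ (1 / 2 : ℝ) := by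
    rw [← Real.sqrt_eq_rpow]; exact Real.nat_sqrt_le_real_sqrt
  have hr1 : (1 : ℝ) ≤ (n : ℝ) ^ (1 / 2 : ℝ) := Real.one_le_rpow hn1 (by norm_num)
  have hrγ : (1 : ℝ) ≤ (n : ℝ) ^ (1 / 2 - γ) := Real.one_le_rpow hn1 (by linarith)
  have hA : ((2 * Nat.sqrt n / m0 + 1 : ℕ) : ℝ) ≤ 3 * (n : ℝ) ^ (1 / 2 - γ) := by
    push_cast
    have g1 : ((2 * Nat.sqrt n / m0 : ℕ) : ℝ) ≤ ((2 * Nat.sqrt n : ℕ) : ℝ) / m0 := Nat.cast_div_le
    have g2 : ((2 * Nat.sqrt n : ℕ) : ℝ) / m0 ≤ (2 * (n : ℝ) ^ (1 / 2 : ℝ)) / (n : ℝ) ^ γ := by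
      push_cast
      gcongr
    have g3 : (2 * (n : ℝ) ^ (1 / 2 : ℝ)) / (n : ℝ) ^ γ = 2 * (n : ℝ) ^ (1 / 2 - γ) := by
      rw [Real.rpow_sub hn0]; ring
    linarith
  have hB : ((2 * Nat.sqrt n + 1 : ℕ) : ℝ) ≤ 3 * (n : ℝ) ^ (1 / 2 : ℝ) := by
    push_cast
    linarith
  have hAB : (((2 * Nat.sqrt n + 1) * (2 * Nat.sqrt n / m0 + 1) : ℕ) : ℝ) ≤ 9 * (n : ℝ) ^ (1 - γ) := by
    rw [Nat.cast_mul]
    calc ((2 * Nat.sqrt n + 1 : ℕ) : ℝ) * ((2 * Nat.sqrt n / m0 + 1 : ℕ) : ℝ)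
        ≤ (3 * (n : ℝ) ^ (1 / 2 : ℝ)) * (3 * (n : ℝ) ^ (1 / 2 - γ)) := mul_le_mul hB hA (by positivity) (by positivity)
      _ = 9 * ((n : ℝ) ^ (1 / 2 : ℝ) * (n : ℝ) ^ (1 / 2 - γ)) := by ring
      _ = _ := by rw [← Real.rpow_add hn0]; congr 2; ring
  have hkR : (R.card : ℝ) ≤ L := by
    have : (R.card : ℝ) ≤ k := by exact_mod_cast hRk
    linarith
  have hT1 : ((T : ℝ) + 1) ≤ 5 * L := by
    rw [hT]; push_cast; linarith
  have hBd1 : Bd ≤ 1800 * C' ^ 2 * (L ^ 5 * (n : ℝ) ^ (1 - γ)) := by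
    calc Bd ≤ R.card * ((T + 1) ^ 2 * (8 * (C' * L) ^ 2 *
          (((2 * Nat.sqrt n + 1) * (2 * Nat.sqrt n / m0 + 1) : ℕ) : ℝ))) := h7
      _ ≤ L * ((5 * L) ^ 2 * (8 * (C' * L) ^ 2 * (9 * (n : ℝ) ^ (1 - γ)))) := by
          have t1 : (0 : ℝ) ≤ (T : ℝ) + 1 := by positivity
          gcongr
      _ = _ := by ring
  have hL5 : L ^ 5 * (n : ℝ) ^ (1 - γ) ≤ (n : ℝ) ^ (1 - 11 * η) := by
    rw [hL, ← Real.rpow_natCast, ← Real.rpow_mul hn0.le, ← Real.rpow_add hn0]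
    apply Real.rpow_le_rpow_of_exponent_le hn1
    push_cast
    linarith
  have hbig := hn2 n (by omega)
  have hbig2 := hn3 n (by omega)
  have hX : 0 < (n : ℝ) ^ (1 - 11 * η) := Real.rpow_pos_of_pos hn0 _
  have e3 : (n : ℝ) ^ (1 - η) = (n : ℝ) ^ (10 * η) * (n : ℝ) ^ (1 - 11 * η) := by
    rw [← Real.rpow_add hn0]; congr 1; ring
  have hBd2 : Bd ≤ (n : ℝ) ^ (1 - η) / 2 := by
    have g1 : Bd ≤ 1800 * C' ^ 2 * (n : ℝ) ^ (1 - 11 * η) := hBd1.trans (by gcongr)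
    have g2 : 3600 * C' ^ 2 * (n : ℝ) ^ (1 - 11 * η) ≤ (n : ℝ) ^ (1 - η) := by
      rw [e3]; gcongr
    linarith
  have hGL : (n : ℝ) ^ (1 - η) / 2 ≤ 25 * L * G := by
    have g1 : (5 * (k : ℝ) + 5) * 5 * G ≤ 25 * L * G := by
      have hG0 : 0 ≤ G := by positivity
      have : (5 * (k : ℝ) + 5) * 5 ≤ 25 * L := by linarith
      gcongr
    linarith
  have e4 : (n : ℝ) ^ (1 - η) = (n : ℝ) ^ (1 - 3 * η) * (L * L) := by
    rw [hL, ← Real.rpow_add hn0, ← Real.rpow_add hn0]; congr 1; ring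
  have hfin : (n : ℝ) ^ (1 - 3 * η) ≤ G := by
    have hY : 0 < (n : ℝ) ^ (1 - 3 * η) := Real.rpow_pos_of_pos hn0 _
    rw [e4] at hGL
    have g1 : (n : ℝ) ^ (1 - 3 * η) * (L * 50) ≤ (n : ℝ) ^ (1 - 3 * η) * (L * L) := by gcongr
    have g2 : L * ((n : ℝ) ^ (1 - 3 * η) * 25) ≤ L * (25 * G) := by nlinarith
    have g3 := le_of_mul_le_mul_left g2 (by linarith)
    linarith
  refine le_trans ?_ hfin
  apply Real.rpow_le_rpow_of_exponent_le hn1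
  linarith

end Pool.Agent.Q255.CV
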