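import Pool.Agent.Q255.CV.Rot
import Pool.Agent.W65.CS.R2
import Pool.Agent.H510R2.Div

/-!
# Counting the vectors two rotations of which have congruent first coordinates
-/

set_option autoImplicit false
open Finset

namespace Pool.Agent.Q255.CV

/-- pairs in a box, congruent modulo `m` -/
lemma pairs_card (B m : ℕ) (hm : 0 < m) (T : Finset (ℤ × ℤ))
    (hT : ∀ p ∈ T, -(B : ℤ) ≤ p.1 ∧ p.1 ≤ B ∧ -(B : ℤ) ≤ p.2 ∧ p.2 ≤ B ∧ (m : ℤ) ∣ p.2 - p.1) :
    T.card ≤ (2 * B + 1) * (2 * B / m + 1) := by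
  classical
  have hm' : (0 : ℤ) < m := by exact_mod_cast hm
  have h : T.card ≤ ((Finset.Icc (-(B : ℤ)) B) ×ˢ (Finset.range (2 * B / m + 1))).card := by
    apply Finset.card_le_card_of_injOn (fun p : ℤ × ℤ => (p.1, ((p.2 + (B : ℤ)) / (m : ℤ)).toNat))
    · intro p hp
      obtain ⟨h1, h2, h3, h4, h5⟩ := hT p hp
      rw [mem_coe, mem_product, mem_Icc, mem_range]
      refine ⟨⟨h1, h2⟩, ?_⟩
      have : ((p.2 + (B : ℤ)) / (m : ℤ)).toNat ≤ 2 * B / m := by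
        rw [Int.toNat_le]
        push_cast
        exact Int.ediv_le_ediv hm' (by linarith)
      exact Nat.lt_succ_of_le this
    · intro p hp p' hp' heq
      obtain ⟨h1, h2, h3, h4, h5⟩ := hT p hp
      obtain ⟨h1', h2', h3', h4', h5'⟩ := hT p' hp'
      simp only [Prod.mk.injEq] at heq
      obtain ⟨e1, e2⟩ := heq
      have a1 : 0 ≤ (p.2 + B) / (m : ℤ) := Int.ediv_nonneg (by linarith) hm'.le
      have a2 : 0 ≤ (p'.2 + B) / (m : ℤ) := Int.ediv_nonneg (by linarith) hm'.le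
      have e3 : (p.2 + B) / (m : ℤ) = (p'.2 + B) / (m : ℤ) := by omega
      have e4 : (m : ℤ) ∣ (p.2 + B) - (p'.2 + B) := by
        have : (p.2 + B) - (p'.2 + B) = (p.2 - p.1) - (p'.2 - p'.1) := by rw [e1]; ring
        rw [this]; exact dvd_sub h5 h5'
      have e5 : (p.2 + B) % (m : ℤ) = (p'.2 + B) % (m : ℤ) :=
        (Int.emod_eq_emod_iff_emod_sub_eq_zero).2 (Int.emod_eq_zero_of_dvd e4)
      have e6 := Int.ediv_mul_add_emod (p.2 + B) (m : ℤ)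
      have e7 := Int.ediv_mul_add_emod (p'.2 + B) (m : ℤ)
      rw [e3, e5, e7] at e6
      exact Prod.ext e1 (by linarith)
  rw [Finset.card_product, Int.card_Icc, Finset.card_range] at h
  have e : ((B : ℤ) + 1 - -(B : ℤ)).toNat = 2 * B + 1 := by omega
  rwa [e] at h

/-- one fibre -/
lemma fib_card (n : ℕ) (Dv : ℝ) (hD : 1 ≤ Dv)
    (hdiv : ∀ M : ℕ, 1 ≤ M → M ≤ n → (M.divisors.card : ℝ) ≤ Dv) (a b : ℤ) (T : Finset (Fin 4 → ℤ))
    (hT : ∀ X ∈ T, ∑ i, X i ^ 2 = (n : ℤ) ∧ X 0 = a ∧ X 3 = b) : (T.card : ℝ) ≤ 8 * Dv ^ 2 := by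
  classical
  rcases T.eq_empty_or_nonempty with h0 | ⟨X0, hX0⟩
  · rw [h0]; simp; positivity
  · have hk : ∀ X ∈ T, X 1 ^ 2 + X 2 ^ 2 = n - a ^ 2 - b ^ 2 := by
      intro X hX
      obtain ⟨h1, h2, h3⟩ := hT X hX
      rw [Fin.sum_univ_four, h2, h3] at h1
      linarith
    have hMp : 0 ≤ (n : ℤ) - a ^ 2 - b ^ 2 := by
      rw [← hk X0 hX0]; positivity
    obtain ⟨M, hM⟩ := Int.eq_ofNat_of_zero_le hMp
    have hinj : ∀ X ∈ T, ∀ X' ∈ T, X 1 = X' 1 → X 2 = X' 2 → X = X' := by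
      intro X hX X' hX' e1 e2
      obtain ⟨h1, h2, h3⟩ := hT X hX
      obtain ⟨h1', h2', h3'⟩ := hT X' hX'
      funext i
      fin_cases i
      · exact h2.trans h2'.symm
      · exact e1
      · exact e2
      · exact h3.trans h3'.symm
    rcases Nat.eq_zero_or_pos M with hM0 | hM0
    · have : T.card ≤ 1 := by
        rw [Finset.card_le_one]
        intro X hX X' hX'
        have k1 := hk X hX
        have k2 := hk X' hX'
        rw [hM, hM0] at k1 k2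
        push_cast at k1 k2
        have z1 : X 1 = 0 := pow_eq_zero_iff two_ne_zero |>.1 (by nlinarith [sq_nonneg (X 1), sq_nonneg (X 2)])
        have z2 : X 2 = 0 := pow_eq_zero_iff two_ne_zero |>.1 (by nlinarith [sq_nonneg (X 1), sq_nonneg (X 2)])
        have z3 : X' 1 = 0 := pow_eq_zero_iff two_ne_zero |>.1 (by nlinarith [sq_nonneg (X' 1), sq_nonneg (X' 2)])
        have z4 : X' 2 = 0 := pow_eq_zero_iff two_ne_zero |>.1 (by nlinarith [sq_nonneg (X' 1), sq_nonneg (X' 2)])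
        exact hinj X hX X' hX' (z1.trans z3.symm) (z2.trans z4.symm)
      have : (T.card : ℝ) ≤ 1 := by exact_mod_cast this
      nlinarith
    · have hc : T.card ≤ (Pool.Agent.W65.CS.R2 M).card := by
        apply Finset.card_le_card_of_injOn (fun X => (X 1, X 2))
        · intro X hX
          rw [mem_coe, Pool.Agent.W65.CS.mem_R2]
          rw [hk X hX, hM]
        · intro X hX X' hX' h
          simp only [Prod.mk.injEq] at h
          exact hinj X hX X' hX' h.1 h.2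
      have hM2 : M ≤ n := by
        have : (M : ℤ) ≤ n := by
          have h5 : ((M : ℕ) : ℤ) = n - a ^ 2 - b ^ 2 := hM.symm
          rw [h5]
          nlinarith [sq_nonneg a, sq_nonneg b]
        exact_mod_cast this
      have h1 := hc.trans (Pool.Agent.W65.CS.R2_card M hM0)
      have h2 : (T.card : ℝ) ≤ 8 * (M.divisors.card : ℝ) ^ 2 := by exact_mod_cast h1
      have h3 := hdiv M hM0 hM2
      have h4 : (M.divisors.card : ℝ) ^ 2 ≤ Dv ^ 2 := by gcongr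
      linarith

lemma sqrt_box (n : ℕ) (x : ℤ) (h : x ^ 2 ≤ n) : -((Nat.sqrt n : ℕ) : ℤ) ≤ x ∧ x ≤ ((Nat.sqrt n : ℕ) : ℤ) := by
  have h1 : x.natAbs ≤ Nat.sqrt n := by
    rw [Nat.le_sqrt']
    zify
    rw [sq_abs]
    exact h
  omega

/-- congruent coordinates -/
lemma cong_card (n : ℕ) (Dv : ℝ) (hD : 1 ≤ Dv)
    (hdiv : ∀ M : ℕ, 1 ≤ M → M ≤ n → (M.divisors.card : ℝ) ≤ Dv) (m : ℕ) (hm : 0 < m)
    (f g : (Fin 4 → ℤ) → ℤ) (T : Finset (Fin 4 → ℤ)) (hT : ∀ X ∈ T, ∑ i, X i ^ 2 = (n : ℤ))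
    (hf : ∀ X ∈ T, f X ^ 2 ≤ (n : ℤ)) (hg : ∀ X ∈ T, g X ^ 2 ≤ (n : ℤ)) (hd : ∀ X ∈ T, (m : ℤ) ∣ g X - f X)
    (hinj : ∀ X ∈ T, ∀ X' ∈ T, f X = f X' → g X = g X' → X 0 = X' 0 ∧ X 3 = X' 3) :
    (T.card : ℝ) ≤ 8 * Dv ^ 2 * (((2 * Nat.sqrt n + 1) * (2 * Nat.sqrt n / m + 1) : ℕ) : ℝ) := by
  classical
  have h1 : T.card ≤ ⌊8 * Dv ^ 2⌋₊ * (T.image (fun X => (f X, g X))).card := by
    apply Finset.card_le_mul_card_image
    intro p hp
    apply Nat.le_floor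
    rw [mem_image] at hp
    obtain ⟨X1, hX1, rfl⟩ := hp
    apply fib_card n Dv hD hdiv (X1 0) (X1 3)
    intro X hX
    rw [mem_filter, Prod.mk.injEq] at hX
    obtain ⟨e1, e2⟩ := hinj X hX.1 X1 hX1 hX.2.1 hX.2.2
    exact ⟨hT X hX.1, e1, e2⟩
  have h2 : (T.image (fun X => (f X, g X))).card ≤ (2 * Nat.sqrt n + 1) * (2 * Nat.sqrt n / m + 1) := by
    apply pairs_card _ m hm
    intro p hp
    rw [mem_image] at hp
    obtain ⟨X, hX, rfl⟩ := hp
    obtain ⟨a1, a2⟩ := sqrt_box n _ (hf X hX)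
    obtain ⟨b1, b2⟩ := sqrt_box n _ (hg X hX)
    exact ⟨a1, a2, b1, b2, hd X hX⟩
  calc (T.card : ℝ) ≤ ((⌊8 * Dv ^ 2⌋₊ * (T.image (fun X => (f X, g X))).card : ℕ) : ℝ) := by exact_mod_cast h1
    _ = (⌊8 * Dv ^ 2⌋₊ : ℝ) * ((T.image (fun X => (f X, g X))).card : ℝ) := by push_cast; ring
    _ ≤ (8 * Dv ^ 2) * (((2 * Nat.sqrt n + 1) * (2 * Nat.sqrt n / m + 1) : ℕ) : ℝ) := by
        apply mul_le_mul (Nat.floor_le (by positivity)) (by exact_mod_cast h2) (by positivity) (by positivity)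

/-- the two exponents are congruent modulo the order -/
lemma ord_dvd (p : ℕ) (hp : p.Prime) (hm : 0 < orderOf (2 : ZMod p)) (a a' b c : ℕ)
    (h : p ∣ 2 ^ a + 2 ^ b + 2 ^ c + 1) (h' : p ∣ 2 ^ a' + 2 ^ b + 2 ^ c + 1) :
    ((orderOf (2 : ZMod p) : ℕ) : ℤ) ∣ (a' : ℤ) - a := by
  have : Fact p.Prime := ⟨hp⟩
  have e1 := (ZMod.natCast_eq_zero_iff _ _).2 h
  have e2 := (ZMod.natCast_eq_zero_iff _ _).2 h'
  push_cast at e1 e2
  have e3 : (2 : ZMod p) ^ a = 2 ^ a' := by linear_combination e1 - e2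
  have hu : IsUnit (2 : ZMod p) := by
    rw [isUnit_iff_ne_zero]
    intro h
    rw [h, orderOf_zero] at hm
    exact lt_irrefl _ hm
  obtain ⟨u, hu⟩ := hu
  rw [← hu] at e3 ⊢
  rw [← Units.val_pow_eq_pow_val, ← Units.val_pow_eq_pow_val, Units.val_inj, pow_eq_pow_iff_modEq] at e3
  rw [orderOf_units]
  exact e3.dvd

end Pool.Agent.Q255.CV
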