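import Pool.Agent.Q255.CV.Cnt

/-!
# From all representations in a class to nonnegative ones avoiding few primes
-/

set_option autoImplicit false
open Finset

namespace Pool.Agent.Q255.CV
open Pool.Agent.W65.FS Pool.Agent.TH696.FA

/-- `2 ^ x + 2 ^ y + 2 ^ z + 1` is divisible by no prime of `R` -/
def Av (R : Finset ℕ) (X : Fin 4 → ℤ) : Prop :=
  ∀ p ∈ R, ¬ p ∣ 2 ^ (X 0).toNat + 2 ^ (X 1).toNat + 2 ^ (X 2).toNat + 1

/-- the class used -/
theorem good_class (n D : ℕ) (h4 : 4 ∣ D) (u : Fin 4 → ℤ) (hu : GoodG n D u)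
    (P Q N P' Q' N' : ℤ) (h1 : RotData D P Q N) (h2 : RotData D P' Q' N') (h12 : IsCoprime N N')
    (T : ℕ) (hT : 0 < T) (D' : ℕ) (hD' : (D' : ℤ) = D * (N ^ T) ^ 2 * N' ^ 2) :
    ∃ u' : Fin 4 → ℤ, GoodG n D' u' ∧ (∀ i, (D : ℤ) ∣ u' i - u i) ∧ (N ^ T) ^ 2 ∣ u' 0 ∧ (N ^ T) ^ 2 ∣ u' 3 ∧
      N' ^ 2 ∣ u' 1 ∧ N' ^ 2 ∣ u' 2 := by
  have cDN : IsCoprime (D : ℤ) ((N ^ T) ^ 2) := h1.cD.pow_right.pow_right
  have cDN' : IsCoprime (D : ℤ) (N' ^ 2) := h2.cD.pow_right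
  have cNN' : IsCoprime ((N ^ T) ^ 2) (N' ^ 2) := (h12.pow_left).pow
  have cST : IsCoprime (S P Q T) ((N ^ T) ^ 2) := by
    obtain ⟨t, rfl⟩ : ∃ t, T = t + 1 := ⟨T - 1, by omega⟩
    exact (S_coprime P Q N h1.sq h1.cQ h1.c2 t).pow_right.pow_right
  have c2T : IsCoprime 2 ((N ^ T) ^ 2) := h1.c2.pow_right.pow_right
  obtain ⟨x, y, hxy, hxyp⟩ := two_sq (C P Q T) (S P Q T) (N ^ T) n (norm_cs P Q N h1.sq T) cST c2T
  obtain ⟨x', y', hxy', hxyp'⟩ := two_sq P' Q' N' n h2.sq h2.cQ.pow_right h2.c2.pow_right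
  obtain ⟨a0, ha0, hb0, hc0⟩ := crt3 _ _ _ cDN cDN' cNN' (u 0) 0 x'
  obtain ⟨a3, ha3, hb3, hc3⟩ := crt3 _ _ _ cDN cDN' cNN' (u 3) 0 y'
  obtain ⟨a1, ha1, hb1, hc1⟩ := crt3 _ _ _ cDN cDN' cNN' (u 1) x 0
  obtain ⟨a2, ha2, hb2, hc2⟩ := crt3 _ _ _ cDN cDN' cNN' (u 2) y 0
  rw [sub_zero] at hb0 hb3 hc1 hc2
  set u' : Fin 4 → ℤ := ![a0, a1, a2, a3] with hu'
  have hDu' : ∀ i, (D : ℤ) ∣ u' i - u i := by
    intro i
    fin_cases i
    · exact ha0
    · exact ha1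
    · exact ha2
    · exact ha3
  have hg : GoodG n D u' := goodG_congr n D h4 u u' (fun i => by
    rw [← neg_sub]; exact (hDu' i).neg_right) hu
  have hsum : (∑ i, u' i ^ 2) - (n : ℤ) = a0 ^ 2 + a1 ^ 2 + a2 ^ 2 + a3 ^ 2 - n := by
    rw [Fin.sum_univ_four]
    rfl
  have hsN : (N ^ T) ^ 2 ∣ (∑ i, u' i ^ 2) - (n : ℤ) := by
    rw [hsum]
    have e : a0 ^ 2 + a1 ^ 2 + a2 ^ 2 + a3 ^ 2 - (n : ℤ) = a0 * a0 + a3 * a3 + (a1 - x) * (a1 + x) +
      (a2 - y) * (a2 + y) + (x ^ 2 + y ^ 2 - n) := by ring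
    rw [e]
    exact dvd_add (dvd_add (dvd_add (dvd_add (hb0.mul_right _) (hb3.mul_right _)) (hb1.mul_right _))
      (hb2.mul_right _)) hxy
  have hsN' : N' ^ 2 ∣ (∑ i, u' i ^ 2) - (n : ℤ) := by
    rw [hsum]
    have e : a0 ^ 2 + a1 ^ 2 + a2 ^ 2 + a3 ^ 2 - (n : ℤ) = (a0 - x') * (a0 + x') + (a3 - y') * (a3 + y') + a1 * a1 +
      a2 * a2 + (x' ^ 2 + y' ^ 2 - n) := by ring
    rw [e]
    exact dvd_add (dvd_add (dvd_add (dvd_add (hc0.mul_right _) (hc3.mul_right _)) (hc1.mul_right _))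
      (hc2.mul_right _)) hxy'
  refine ⟨u', ⟨?_, ?_⟩, hDu', hb0, hb3, hc1, hc2⟩
  · rw [hD']
    have e : (2 : ℤ) * (D * (N ^ T) ^ 2 * N' ^ 2) = 2 * D * (N ^ T) ^ 2 * N' ^ 2 := by ring
    rw [e]
    have c1 : IsCoprime (2 * (D : ℤ)) ((N ^ T) ^ 2) := IsCoprime.mul_left c2T cDN
    have c2 : IsCoprime (2 * (D : ℤ)) (N' ^ 2) := IsCoprime.mul_left h2.c2.pow_right cDN'
    exact IsCoprime.mul_dvd (IsCoprime.mul_left c2 cNN') (IsCoprime.mul_dvd c1 hg.1 hsN) hsN'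
  · intro l hl hlD
    have hlp : Prime (l : ℤ) := Nat.prime_iff_prime_int.1 hl
    have h5 : (l : ℤ) ∣ D * (N ^ T) ^ 2 * N' ^ 2 := by rw [← hD']; exact_mod_cast hlD
    rcases hlp.dvd_or_dvd h5 with h6 | h6
    · rcases hlp.dvd_or_dvd h6 with h7 | h7
      · exact hg.2 l hl (by exact_mod_cast h7)
      · by_contra hall
        push Not at hall
        apply hxyp l hlp h7
        constructor
        · have e : x = a1 - (a1 - x) := by ring
          rw [e]; exact dvd_sub (hall 1) (h7.trans hb1)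
        · have e : y = a2 - (a2 - y) := by ring
          rw [e]; exact dvd_sub (hall 2) (h7.trans hb2)
    · by_contra hall
      push Not at hall
      apply hxyp' l hlp h6
      constructor
      · have e : x' = a0 - (a0 - x') := by ring
        rw [e]; exact dvd_sub (hall 0) (h6.trans hc0)
      · have e : y' = a3 - (a3 - y') := by ring
        rw [e]; exact dvd_sub (hall 3) (h6.trans hc3)

/-- the vector obtained from `X` by the rotation with the exponent `e` of `(X 0, X 3)` and the rotation number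
`l` of `(X 1, X 2)` -/
def rv (P Q N P' Q' N' : ℤ) (T e : ℕ) (l : Fin 5) (X : Fin 4 → ℤ) : Fin 4 → ℤ :=
  ![Y0 P Q N T e (X 0 / N ^ T) (X 3 / N ^ T),
    rc P' Q' N' l * (X 1 / N' ^ 2) - rs P' Q' N' l * (X 2 / N' ^ 2),
    rs P' Q' N' l * (X 1 / N' ^ 2) + rc P' Q' N' l * (X 2 / N' ^ 2),
    Y1 P Q N T e (X 0 / N ^ T) (X 3 / N ^ T)]

/-- the bad vectors -/
def Bad (R : Finset ℕ) (P Q N : ℤ) (T : ℕ) (X : Fin 4 → ℤ) : Prop :=
  ∃ p ∈ R, ∃ e ∈ range (T + 1), ∃ e' ∈ range (T + 1), e < e' ∧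
    ((orderOf (2 : ZMod p) : ℕ) : ℤ) ∣ Y0 P Q N T e' (X 0 / N ^ T) (X 3 / N ^ T) -
      Y0 P Q N T e (X 0 / N ^ T) (X 3 / N ^ T)

open Classical in
theorem inj_count (n D : ℕ) (u : Fin 4 → ℤ)
    (P Q N P' Q' N' : ℤ) (h1 : RotData D P Q N) (h2 : RotData D P' Q' N')
    (k : ℕ) (D' : ℕ) (hD' : (D' : ℤ) = D * (N ^ (5 * k + 4)) ^ 2 * N' ^ 2) (u' : Fin 4 → ℤ)
    (hDu' : ∀ i, (D : ℤ) ∣ u' i - u i) (d0 : (N ^ (5 * k + 4)) ^ 2 ∣ u' 0) (d3 : (N ^ (5 * k + 4)) ^ 2 ∣ u' 3)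
    (d1 : N' ^ 2 ∣ u' 1) (d2 : N' ^ 2 ∣ u' 2) (R : Finset ℕ) (hRk : R.card ≤ k)
    (hR : ∀ p ∈ R, p.Prime ∧ 0 < orderOf (2 : ZMod p)) :
    (repsc n D' u').card ≤ (5 * k + 5) * 5 * ((orth n D u).filter (fun V => Av R V)).card +
      ((repsc n D' u').filter (fun X => Bad R P Q N (5 * k + 4) X)).card := by
  set T : ℕ := 5 * k + 4 with hT
  have hN0 := h1.hN
  have hN0' := h2.hN
  have hNT : (0 : ℤ) < N ^ T := by positivity
  have hN2' : (0 : ℤ) < N' ^ 2 := by positivity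
  have hdiv : ∀ X ∈ repsc n D' u', N ^ T ∣ X 0 ∧ N ^ T ∣ X 3 ∧ N' ^ 2 ∣ X 1 ∧ N' ^ 2 ∣ X 2 ∧
      ∀ i, (D : ℤ) ∣ X i - u i := by
    intro X hX
    rw [mem_repsc] at hX
    have dN : (N ^ T) ∣ (D' : ℤ) := by rw [hD']; exact ⟨D * N ^ T * N' ^ 2, by ring⟩
    have dN' : N' ^ 2 ∣ (D' : ℤ) := by rw [hD']; exact ⟨D * (N ^ T) ^ 2, by ring⟩
    have dD : (D : ℤ) ∣ (D' : ℤ) := by rw [hD']; exact ⟨(N ^ T) ^ 2 * N' ^ 2, by ring⟩
    have dd : N ^ T ∣ (N ^ T) ^ 2 := dvd_pow_self _ two_ne_zero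
    have aux : ∀ (m : ℤ) (i : Fin 4), m ∣ (D' : ℤ) → m ∣ u' i → m ∣ X i := by
      intro m i hm hi
      have e : X i = (X i - u' i) + u' i := by ring
      rw [e]; exact dvd_add (hm.trans (hX.2 i)) hi
    refine ⟨aux _ 0 dN (dd.trans d0), aux _ 3 dN (dd.trans d3), aux _ 1 dN' d1, aux _ 2 dN' d2, fun i => ?_⟩
    have e : X i - u i = (X i - u' i) + (u' i - u i) := by ring
    rw [e]; exact dvd_add (dD.trans (hX.2 i)) (hDu' i)
  -- membership
  have hmem : ∀ X ∈ repsc n D' u', ∀ e ≤ T, ∀ l : Fin 5,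
      (∀ i, 0 ≤ rv P Q N P' Q' N' T e l X i) → rv P Q N P' Q' N' T e l X ∈ orth n D u := by
    intro X hX e he l hpos
    obtain ⟨⟨w0, hw0⟩, ⟨w3, hw3⟩, ⟨w1, hw1⟩, ⟨w2, hw2⟩, hXD⟩ := hdiv X hX
    rw [mem_repsc] at hX
    have q0 : X 0 / N ^ T = w0 := by rw [hw0]; exact Int.mul_ediv_cancel_left _ hNT.ne'
    have q3 : X 3 / N ^ T = w3 := by rw [hw3]; exact Int.mul_ediv_cancel_left _ hNT.ne'
    have q1 : X 1 / N' ^ 2 = w1 := by rw [hw1]; exact Int.mul_ediv_cancel_left _ hN2'.ne'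
    have q2 : X 2 / N' ^ 2 = w2 := by rw [hw2]; exact Int.mul_ediv_cancel_left _ hN2'.ne'
    rw [mem_orth]
    refine ⟨⟨?_, ?_⟩, hpos⟩
    · have e1 := Y_sq P Q N h1.sq T e he w0 w3
      have e2 := rc_rs P' Q' N' h2.sq l
      have e3 : ∑ i, X i ^ 2 = (n : ℤ) := hX.1
      rw [Fin.sum_univ_four] at e3
      rw [Fin.sum_univ_four]
      simp only [rv, Matrix.cons_val_zero, Matrix.cons_val_one, Matrix.cons_val, q0, q1, q2, q3]
      rw [← hw0, ← hw3] at e1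
      rw [hw1, hw2] at e3
      linear_combination e1 + (w1 ^ 2 + w2 ^ 2) * e2 + e3
    · obtain ⟨c1, c2⟩ := Y_congr P Q N D h1.d1 h1.d2 T e he w0 w3
      have c3 := rc_congr P' Q' N' D h2.d1 h2.d2 l
      have s3 := rs_congr P' Q' N' D h2.d2 l
      intro i
      fin_cases i
      · show (D : ℤ) ∣ rv P Q N P' Q' N' T e l X 0 - u 0
        simp only [rv, Matrix.cons_val_zero, q0, q3]
        have e : Y0 P Q N T e w0 w3 - u 0 = (Y0 P Q N T e w0 w3 - N ^ T * w0) + (X 0 - u 0) := by rw [hw0]; ring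
        rw [e]
        exact dvd_add c1 (hXD 0)
      · show (D : ℤ) ∣ rv P Q N P' Q' N' T e l X 1 - u 1
        simp only [rv, Matrix.cons_val_one, Matrix.cons_val_zero, q1, q2]
        have e : rc P' Q' N' l * w1 - rs P' Q' N' l * w2 - u 1 =
          (rc P' Q' N' l - N' ^ 2) * w1 - rs P' Q' N' l * w2 + (X 1 - u 1) := by rw [hw1]; ring
        rw [e]
        exact dvd_add (dvd_sub (c3.mul_right _) (s3.mul_right _)) (hXD 1)
      · show (D : ℤ) ∣ rv P Q N P' Q' N' T e l X 2 - u 2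
        simp only [rv, Matrix.cons_val, q1, q2]
        have e : rs P' Q' N' l * w1 + rc P' Q' N' l * w2 - u 2 =
          rs P' Q' N' l * w1 + (rc P' Q' N' l - N' ^ 2) * w2 + (X 2 - u 2) := by rw [hw2]; ring
        rw [e]
        exact dvd_add (dvd_add (s3.mul_right _) (c3.mul_right _)) (hXD 2)
      · show (D : ℤ) ∣ rv P Q N P' Q' N' T e l X 3 - u 3
        simp only [rv, Matrix.cons_val, q0, q3]
        have e : Y1 P Q N T e w0 w3 - u 3 = (Y1 P Q N T e w0 w3 - N ^ T * w3) + (X 3 - u 3) := by rw [hw3]; ring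
        rw [e]
        exact dvd_add c2 (hXD 3)
  -- a good exponent for every vector which is not bad
  have hgood : ∀ X ∈ (repsc n D' u').filter (fun X => ¬ Bad R P Q N T X), ∃ e : ℕ, ∃ l : Fin 5, e ≤ T ∧
      rv P Q N P' Q' N' T e l X ∈ (orth n D u).filter (fun V => Av R V) := by
    intro X hX
    rw [mem_filter] at hX
    obtain ⟨hX, hnb⟩ := hX
    obtain ⟨l, hl1, hl2⟩ := cover P' Q' N' h2.hN.le h2.hP h2.hQ (X 1 / N' ^ 2) (X 2 / N' ^ 2)
    have hcov : ∀ m : ℕ, ∃ e : ℕ, 5 * m ≤ e ∧ e ≤ 5 * m + 4 ∧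
        0 ≤ Y0 P Q N T e (X 0 / N ^ T) (X 3 / N ^ T) ∧ 0 ≤ Y1 P Q N T e (X 0 / N ^ T) (X 3 / N ^ T) := by
      intro m
      obtain ⟨e, he1, he2, he3, he4⟩ := coverE P Q N h1.sq h1.hN h1.hP h1.hQ (5 * m) (X 0 / N ^ T) (X 3 / N ^ T)
      exact ⟨e, he1, he2, mul_nonneg (by positivity) he3, mul_nonneg (by positivity) he4⟩
    choose ee hee1 hee2 hee3 hee4 using hcov
    have hnn : ∀ m, ∀ i, 0 ≤ rv P Q N P' Q' N' T (ee m) l X i := by
      intro m i
      fin_cases i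
      · exact hee3 m
      · exact hl1
      · exact hl2
      · exact hee4 m
    have key : ∃ m, m ≤ k ∧ Av R (rv P Q N P' Q' N' T (ee m) l X) := by
      by_contra hcon
      push Not at hcon
      have hall : ∀ m : ℕ, m ≤ k → ∃ p ∈ R, p ∣ 2 ^ (Y0 P Q N T (ee m) (X 0 / N ^ T) (X 3 / N ^ T)).toNat +
          2 ^ (rc P' Q' N' l * (X 1 / N' ^ 2) - rs P' Q' N' l * (X 2 / N' ^ 2)).toNat +
          2 ^ (rs P' Q' N' l * (X 1 / N' ^ 2) + rc P' Q' N' l * (X 2 / N' ^ 2)).toNat + 1 := by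
        intro m hm
        have := hcon m hm
        unfold Av at this
        push Not at this
        obtain ⟨p, hp, hpd⟩ := this
        exact ⟨p, hp, hpd⟩
      choose! f hf1 hf2 using hall
      obtain ⟨m1, hm1, m2, hm2, hne, heq⟩ := Finset.exists_ne_map_eq_of_card_lt_of_maps_to
        (s := range (k + 1)) (t := R) (by rw [card_range]; omega) (f := f)
        (fun m hm => hf1 m (by rw [mem_coe, mem_range] at hm; omega))
      rw [mem_range] at hm1 hm2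
      wlog hlt : m1 < m2 generalizing m1 m2
      · exact this m2 hm2 m1 hm1 hne.symm heq.symm (by omega)
      have g1 := hf2 m1 (by omega)
      have g2 := hf2 m2 (by omega)
      rw [← heq] at g2
      have hp := hR (f m1) (hf1 m1 (by omega))
      have g3 := ord_dvd (f m1) hp.1 hp.2 _ _ _ _ g1 g2
      rw [Int.toNat_of_nonneg (hee3 m1), Int.toNat_of_nonneg (hee3 m2)] at g3
      apply hnb
      refine ⟨f m1, hf1 m1 (by omega), ee m1, ?_, ee m2, ?_, ?_, g3⟩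
      · rw [mem_range]; have := hee2 m1; omega
      · rw [mem_range]; have := hee2 m2; omega
      · have := hee2 m1; have := hee1 m2; omega
    obtain ⟨m, hm, hAv⟩ := key
    refine ⟨ee m, l, by have := hee2 m; omega, ?_⟩
    rw [mem_filter]
    exact ⟨hmem X hX (ee m) (by have := hee2 m; omega) l (hnn m), hAv⟩
  choose! ee ll hee hrv using hgood
  have hcard : ((repsc n D' u').filter (fun X => ¬ Bad R P Q N T X)).card ≤
      ((range (T + 1)) ×ˢ ((Finset.univ : Finset (Fin 5)) ×ˢ ((orth n D u).filter (fun V => Av R V)))).card := by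
    apply Finset.card_le_card_of_injOn (fun X => (ee X, (ll X, rv P Q N P' Q' N' T (ee X) (ll X) X)))
    · intro X hX
      rw [mem_coe] at hX
      rw [mem_coe, mem_product, mem_product, mem_range]
      exact ⟨Nat.lt_succ_of_le (hee X hX), mem_univ _, hrv X hX⟩
    · intro X hX Y hY hXY
      rw [mem_coe] at hX hY
      have hX' := hdiv X (mem_filter.1 hX).1
      have hY' := hdiv Y (mem_filter.1 hY).1
      simp only [Prod.mk.injEq] at hXY
      obtain ⟨hk1, hk2, hr⟩ := hXY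
      rw [← hk1, ← hk2] at hr
      have r0 := congrFun hr 0
      have r1 := congrFun hr 1
      have r2 := congrFun hr 2
      have r3 := congrFun hr 3
      simp only [rv, Matrix.cons_val_zero, Matrix.cons_val_one, Matrix.cons_val] at r0 r1 r2 r3
      have hN4' : N' ^ 4 ≠ 0 := by positivity
      obtain ⟨t0, t3⟩ := Y_inj P Q N h1.sq hN0 T _ _ _ _ _ r0 r3
      obtain ⟨t1, t2⟩ := rot_inj _ _ _ hN4' (rc_rs P' Q' N' h2.sq (ll X)) _ _ _ _ r1 r2
      funext i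
      fin_cases i
      · show X 0 = Y 0
        rw [← Int.ediv_mul_cancel hX'.1, ← Int.ediv_mul_cancel hY'.1, t0]
      · show X 1 = Y 1
        rw [← Int.ediv_mul_cancel hX'.2.2.1, ← Int.ediv_mul_cancel hY'.2.2.1, t1]
      · show X 2 = Y 2
        rw [← Int.ediv_mul_cancel hX'.2.2.2.1, ← Int.ediv_mul_cancel hY'.2.2.2.1, t2]
      · show X 3 = Y 3
        rw [← Int.ediv_mul_cancel hX'.2.1, ← Int.ediv_mul_cancel hY'.2.1, t3]
  rw [card_product, card_product, card_range, card_univ, Fintype.card_fin] at hcard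
  have hsplit := Finset.card_filter_add_card_filter_not (s := repsc n D' u') (fun X => Bad R P Q N T X)
  have e5 : T + 1 = 5 * k + 5 := by omega
  rw [e5] at hcard
  calc (repsc n D' u').card = ((repsc n D' u').filter (fun X => Bad R P Q N T X)).card +
        ((repsc n D' u').filter (fun X => ¬ Bad R P Q N T X)).card := hsplit.symm
    _ ≤ _ := by
      have e6 : (5 * k + 5) * (5 * ((orth n D u).filter (fun V => Av R V)).card) =
        (5 * k + 5) * 5 * ((orth n D u).filter (fun V => Av R V)).card := by ring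
      omega

end Pool.Agent.Q255.CV
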