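import Pool.Agent.Q255.CV.Avoid
import Pool.Agent.TH696.FA.Final3

/-!
# `2^x + 2^y + 2^z + 1`: avoiding few primes of arbitrary size
-/

set_option autoImplicit false
open Finset

namespace Pool.Agent.Q255.CV
open Pool.Agent.W65.FS Pool.Agent.TH696.FA

/-- the condition on `K` (or on the order of `2` modulo a prime) -/
def Adm (n K : ℕ) : Prop :=
  (∀ l : ℕ, l.Prime → 5 ≤ l → l ^ 2 ∣ K → ¬ (l : ℤ) ∣ (3 * n - 2) * (9 * n - 2)) ∧
    (3 ∣ n ∨ n % 32 = 13 ∨ ¬ 3 ∣ K)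

lemma img (n D : ℕ) (u : Fin 4 → ℤ) (h2D : (2 : ℤ) ∣ (D : ℤ)) (hu3 : (2 : ℤ) ∣ u 3) (G : Finset (Fin 4 → ℤ))
    (hG : G ⊆ orth n D u) : ∃ S : Finset (ℕ × ℕ × ℕ × ℕ), S.card = G.card ∧
      ∀ x y z w : ℕ, (x, y, z, w) ∈ S → n = x ^ 2 + y ^ 2 + z ^ 2 + 4 * w ^ 2 ∧ (D : ℤ) ∣ (x : ℤ) - u 0 ∧
        (D : ℤ) ∣ (y : ℤ) - u 1 ∧ (D : ℤ) ∣ (z : ℤ) - u 2 ∧ ∃ X ∈ G, X 0 = x ∧ X 1 = y ∧ X 2 = z := by
  classical
  refine ⟨G.image (fun X => ((X 0).toNat, (X 1).toNat, (X 2).toNat, (X 3).toNat / 2)), ?_, ?_⟩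
  · apply Finset.card_image_of_injOn
    intro X hX Y hY hXY
    have hX := hG hX
    have hY := hG hY
    rw [mem_orth] at hX hY
    simp only [Prod.mk.injEq] at hXY
    obtain ⟨e0, e1, e2, e3⟩ := hXY
    have g := hX.2
    have g' := hY.2
    have k3 := h2D.trans (hX.1.2 3)
    have k3' := h2D.trans (hY.1.2 3)
    funext i
    fin_cases i
    · have a1 := g 0; have a2 := g' 0
      show X 0 = Y 0
      omega
    · have a1 := g 1; have a2 := g' 1
      show X 1 = Y 1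
      omega
    · have a1 := g 2; have a2 := g' 2
      show X 2 = Y 2
      omega
    · have a1 := g 3; have a2 := g' 3
      show X 3 = Y 3
      omega
  · intro x y z w' hxyzw
    rw [Finset.mem_image] at hxyzw
    obtain ⟨X, hX', hXe⟩ := hxyzw
    have hX := hG hX'
    rw [mem_orth] at hX
    obtain ⟨⟨hsum, hcong⟩, hpos⟩ := hX
    simp only [Prod.mk.injEq] at hXe
    obtain ⟨e0, e1, e2, e3⟩ := hXe
    have k3 := h2D.trans (hcong 3)
    have x0 : X 0 = x := by have := hpos 0; omega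
    have x1 : X 1 = y := by have := hpos 1; omega
    have x2 : X 2 = z := by have := hpos 2; omega
    have x3 : X 3 = 2 * w' := by have := hpos 3; omega
    rw [Fin.sum_univ_four, x0, x1, x2, x3] at hsum
    have c0 := hcong 0
    have c1 := hcong 1
    have c2 := hcong 2
    rw [x0] at c0
    rw [x1] at c1
    rw [x2] at c2
    refine ⟨?_, c0, c1, c2, X, hX', x0, x1, x2⟩
    have : (n : ℤ) = ((x ^ 2 + y ^ 2 + z ^ 2 + 4 * w' ^ 2 : ℕ) : ℤ) := by
      push_cast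
      linear_combination -hsum
    exact_mod_cast this

/-- the class and the coprimality -/
lemma loc (n K : ℕ) (hno : Odd n) (hK : 0 < K) (hA : Adm n K) : ∃ u : Fin 4 → ℤ, GoodG n (12 * K) u ∧
    (2 : ℤ) ∣ u 3 ∧ ∀ x y z : ℕ, ((12 * K : ℕ) : ℤ) ∣ (x : ℤ) - u 0 → ((12 * K : ℕ) : ℤ) ∣ (y : ℤ) - u 1 →
      ((12 * K : ℕ) : ℤ) ∣ (z : ℤ) - u 2 → Nat.Coprime (2 ^ x + 2 ^ y + 2 ^ z + 1) (2 * (2 ^ K - 1)) := by
  obtain ⟨hsq, hres⟩ := hA
  by_cases hc : 3 ∣ n ∨ n % 32 = 13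
  · obtain ⟨v, L, hL, hKL⟩ := Nat.exists_eq_two_pow_mul_odd hK.ne'
    have hL0 : L ≠ 0 := by rintro rfl; simp at hL
    obtain ⟨w, M, hM3, hLM⟩ := Nat.exists_eq_pow_mul_and_not_dvd hL0 3 (by norm_num)
    have hM0 : 0 < M := by
      rcases Nat.eq_zero_or_pos M with h0 | h0
      · rw [h0] at hM3; simp at hM3
      · exact h0
    have hM2 : ¬ 2 ∣ M := by
      intro h2
      rw [hLM] at hL
      have h2' : 2 ∣ 3 ^ w * M := h2.mul_left _
      exact (Nat.not_even_iff_odd.2 hL) (even_iff_two_dvd.2 h2')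
    have hM6 : Nat.Coprime 6 M := by
      have e : (6 : ℕ) = 2 * 3 := by norm_num
      rw [e]
      exact Nat.Coprime.mul_left ((Nat.Prime.coprime_iff_not_dvd Nat.prime_two).2 hM2)
        ((Nat.Prime.coprime_iff_not_dvd Nat.prime_three).2 hM3)
    have hKM : K = 2 ^ v * 3 ^ w * M := by rw [hKL, hLM]; ring
    have hsqM : ∀ l : ℕ, l.Prime → l ^ 2 ∣ M → ¬ (l : ℤ) ∣ (3 * n - 2) * (9 * n - 2) := by
      intro l hl hlM
      have hlM' : l ∣ M := (dvd_pow_self l two_ne_zero).trans hlM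
      apply hsq l hl
      · by_contra hlt
        push Not at hlt
        have h2 := hl.two_le
        have h5 : l = 2 ∨ l = 3 ∨ l = 4 := by omega
        rcases h5 with rfl | rfl | rfl
        · exact hM2 hlM'
        · exact hM3 hlM'
        · exact absurd hl (by norm_num)
      · rw [hKM]; exact hlM.mul_left _
    obtain ⟨u, hu, hP⟩ := local2 n v w M hno hM0 hM6 hsqM hc
    have hDK : 2 ^ (v + 2) * 3 ^ (w + 1) * M = 12 * K := by rw [hKM]; ring
    rw [hDK] at hu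
    refine ⟨u, hu, hP.2.1, ?_⟩
    intro x y z hx hy hz
    rw [← hDK] at hx hy hz
    rw [hKM]
    exact coprime2 v w M hM0 hM6 u hP x y z hx hy hz
  · have hK3 : ¬ 3 ∣ K := by
      rcases hres with h | h | h
      · exact absurd (Or.inl h) hc
      · exact absurd (Or.inr h) hc
      · exact h
    obtain ⟨v, M, hL, hKM⟩ := Nat.exists_eq_two_pow_mul_odd hK.ne'
    have hM0 : 0 < M := hL.pos
    have hM3 : ¬ 3 ∣ M := by
      intro h3
      apply hK3
      rw [hKM]; exact h3.mul_left _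
    have hM2 : ¬ 2 ∣ M := by
      intro h2
      exact (Nat.not_even_iff_odd.2 hL) (even_iff_two_dvd.2 h2)
    have hM6 : Nat.Coprime 6 M := by
      have e : (6 : ℕ) = 2 * 3 := by norm_num
      rw [e]
      exact Nat.Coprime.mul_left ((Nat.Prime.coprime_iff_not_dvd Nat.prime_two).2 hM2)
        ((Nat.Prime.coprime_iff_not_dvd Nat.prime_three).2 hM3)
    have hsqM : ∀ l : ℕ, l.Prime → l ^ 2 ∣ M → ¬ (l : ℤ) ∣ (3 * n - 2) * (9 * n - 2) := by
      intro l hl hlM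
      have hlM' : l ∣ M := (dvd_pow_self l two_ne_zero).trans hlM
      apply hsq l hl
      · by_contra hlt
        push Not at hlt
        have h2 := hl.two_le
        have h5 : l = 2 ∨ l = 3 ∨ l = 4 := by omega
        rcases h5 with rfl | rfl | rfl
        · exact hM2 hlM'
        · exact hM3 hlM'
        · exact absurd hl (by norm_num)
      · rw [hKM]; exact hlM.mul_left _
    obtain ⟨u, hu, hP⟩ := local3 n v M hno hM0 hM6 hsqM
    have hDK : 2 ^ (v + 2) * 3 * M = 12 * K := by rw [hKM]; ring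
    rw [hDK] at hu
    refine ⟨u, hu, hP.1, ?_⟩
    intro x y z hx hy hz
    rw [← hDK] at hx hy hz
    rw [hKM]
    exact Nat.Coprime.coprime_dvd_right (Nat.mul_dvd_mul_right (by norm_num) _)
      (coprime3 v M hM6 u hP x y z hx hy hz)

/-- the conclusion -/
def Concl (n K : ℕ) (ε : ℝ) (P : Finset ℕ) : Prop :=
  ∃ S : Finset (ℕ × ℕ × ℕ × ℕ), (n : ℝ) ^ (1 - ε) ≤ (S.card : ℝ) ∧
    ∀ x y z w : ℕ, (x, y, z, w) ∈ S → n = x ^ 2 + y ^ 2 + z ^ 2 + 4 * w ^ 2 ∧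
      Nat.Coprime (2 ^ x + 2 ^ y + 2 ^ z + 1) (2 * (2 ^ K - 1)) ∧
      ∀ p ∈ P, ¬ p ∣ 2 ^ x + 2 ^ y + 2 ^ z + 1

theorem large (ε κ : ℝ) (hε : 0 < ε) (hκ : 0 < κ) : ∃ c : ℝ, 0 < c ∧ ∃ n0 : ℕ, ∀ n K k : ℕ, n0 ≤ n → Odd n →
    0 < K → ((K : ℝ) + 1) ^ (k + 1) ≤ (n : ℝ) ^ c → Adm n K → ∀ P : Finset ℕ, P.card ≤ k →
    (∀ p ∈ P, p.Prime ∧ (n : ℝ) ^ κ ≤ (orderOf (2 : ZMod p) : ℝ)) → Concl n K ε P := by
  classical
  obtain ⟨c, hc, n1, h⟩ := avoid ε (min κ (1 / 2)) hε (lt_min hκ (by norm_num)) (min_le_right _ _)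
  refine ⟨c / 505, by positivity, n1, ?_⟩
  intro n K k hn hno hK hKn hA P hPk hP
  have hn' : 1 ≤ n := hno.pos
  have hn1 : (1 : ℝ) ≤ n := by exact_mod_cast hn'
  have hn0 : (0 : ℝ) < n := by linarith
  obtain ⟨u, hu, hu3, hcop⟩ := loc n K hno hK hA
  have hK1 : (1 : ℝ) ≤ K := by exact_mod_cast hK
  have h12 : ((12 * K : ℕ) : ℝ) ≤ ((K : ℝ) + 1) ^ 5 := by
    push_cast
    have h2 : (16 : ℝ) ≤ ((K : ℝ) + 1) ^ 4 := by
      calc (16 : ℝ) = 2 ^ 4 := by norm_num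
        _ ≤ _ := by gcongr; linarith
    calc 12 * (K : ℝ) ≤ 16 * (K + 1) := by linarith
      _ ≤ ((K : ℝ) + 1) ^ 4 * (K + 1) := by gcongr
      _ = _ := by ring
  have hD : ((12 * K : ℕ) : ℝ) ^ (101 * (k + 1)) ≤ (n : ℝ) ^ c := by
    have e1 : 5 * (101 * (k + 1)) = (k + 1) * 505 := by ring
    have e2 : c / 505 * ((505 : ℕ) : ℝ) = c := by push_cast; ring
    have t1 : ((12 * K : ℕ) : ℝ) ^ (101 * (k + 1)) ≤ (((K : ℝ) + 1) ^ 5) ^ (101 * (k + 1)) :=
      pow_le_pow_left₀ (by positivity) h12 _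
    have t2 : (((K : ℝ) + 1) ^ 5) ^ (101 * (k + 1)) = (((K : ℝ) + 1) ^ (k + 1)) ^ 505 := by
      rw [← pow_mul, e1, pow_mul]
    have t3 : (((K : ℝ) + 1) ^ (k + 1)) ^ 505 ≤ ((n : ℝ) ^ (c / 505)) ^ 505 :=
      pow_le_pow_left₀ (by positivity) hKn _
    have t4 : ((n : ℝ) ^ (c / 505)) ^ 505 = (n : ℝ) ^ c := by
      rw [← Real.rpow_natCast ((n : ℝ) ^ (c / 505)) 505, ← Real.rpow_mul hn0.le, e2]
    rw [t2] at t1
    exact t1.trans (t3.trans t4.le)
  have h1 := h n (12 * K) k (by omega) hno (by omega) ⟨3 * K, by ring⟩ hD u hu P hPk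
    (fun p hp => ⟨(hP p hp).1, le_trans (Real.rpow_le_rpow_of_exponent_le hn1 (min_le_left _ _)) (hP p hp).2⟩)
  obtain ⟨S, hS, hS'⟩ := img n (12 * K) u (by push_cast; exact ⟨6 * K, by ring⟩) hu3
    ((orth n (12 * K) u).filter (fun V => Av P V)) (Finset.filter_subset _ _)
  refine ⟨S, by rw [hS]; exact h1, ?_⟩
  intro x y z w hxyzw
  obtain ⟨g1, g2, g3, g4, X, hX, x0, x1, x2⟩ := hS' x y z w hxyzw
  refine ⟨g1, hcop x y z g2 g3 g4, ?_⟩
  intro p hp hd
  have hav := (mem_filter.1 hX).2 p hp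
  rw [x0, x1, x2, Int.toNat_natCast, Int.toNat_natCast, Int.toNat_natCast] at hav
  exact hav hd

lemma pp_lcm (l j K m : ℕ) (hl : l.Prime) (hK : K ≠ 0) (hm : m ≠ 0) (h : l ^ j ∣ Nat.lcm K m) :
    l ^ j ∣ K ∨ l ^ j ∣ m := by
  rw [hl.pow_dvd_iff_le_factorization (Nat.lcm_ne_zero hK hm), Nat.factorization_lcm hK hm,
    Finsupp.sup_apply] at h
  rw [hl.pow_dvd_iff_le_factorization hK, hl.pow_dvd_iff_le_factorization hm]
  exact le_sup_iff.1 h

lemma adm_lcm (n K m : ℕ) (hK : K ≠ 0) (hm : m ≠ 0) (h1 : Adm n K) (h2 : Adm n m) : Adm n (Nat.lcm K m) := by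
  refine ⟨?_, ?_⟩
  · intro l hl hl5 hd
    rcases pp_lcm l 2 K m hl hK hm hd with h | h
    · exact h1.1 l hl hl5 h
    · exact h2.1 l hl hl5 h
  · rcases h1.2 with h | h | h
    · exact Or.inl h
    · exact Or.inr (Or.inl h)
    · rcases h2.2 with h' | h' | h'
      · exact Or.inl h'
      · exact Or.inr (Or.inl h')
      · refine Or.inr (Or.inr fun hd => ?_)
        rw [← pow_one 3] at hd
        rcases pp_lcm 3 1 K m Nat.prime_three hK hm hd with h3 | h3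
        · exact h (by simpa using h3)
        · exact h' (by simpa using h3)

theorem few (ε κ : ℝ) (hε : 0 < ε) (hκ : 0 < κ) (k : ℕ) : ∃ δ : ℝ, 0 < δ ∧ ∃ n0 : ℕ, ∀ n K : ℕ, n0 ≤ n → Odd n →
    0 < K → (K : ℝ) ≤ (n : ℝ) ^ δ → Adm n K → ∀ P : Finset ℕ, P.card ≤ k →
    (∀ p ∈ P, p.Prime ∧ (Adm n (orderOf (2 : ZMod p)) ∨ (n : ℝ) ^ κ ≤ (orderOf (2 : ZMod p) : ℝ))) →
    Concl n K ε P := by
  classical
  -- from `large`
  have step : ∀ (γ : ℝ), 0 < γ → ∀ k : ℕ, ∃ δ : ℝ, 0 < δ ∧ ∃ n0 : ℕ, ∀ n K : ℕ, n0 ≤ n → Odd n →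
      0 < K → (K : ℝ) ≤ (n : ℝ) ^ δ → Adm n K → ∀ P : Finset ℕ, P.card ≤ k →
      (∀ p ∈ P, p.Prime ∧ (n : ℝ) ^ γ ≤ (orderOf (2 : ZMod p) : ℝ)) → Concl n K ε P := by
    intro γ hγ k
    obtain ⟨c, hc, n1, h⟩ := large ε γ hε hγ
    obtain ⟨n2, hn2⟩ := large_rp 2 (c / (2 * (k + 1))) (by positivity)
    refine ⟨c / (2 * (k + 1)), by positivity, n1 + n2, ?_⟩
    intro n K hn hno hK hKn hA P hPk hP
    have hn' : 1 ≤ n := hno.pos
    have hn1 : (1 : ℝ) ≤ n := by exact_mod_cast hn'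
    have hn0 : (0 : ℝ) < n := by linarith
    apply h n K k (by omega) hno hK _ hA P hPk hP
    have hK1 : (1 : ℝ) ≤ K := by exact_mod_cast hK
    have h2 := hn2 n (by omega)
    have h3 : (K : ℝ) + 1 ≤ (n : ℝ) ^ (c / (k + 1)) := by
      calc (K : ℝ) + 1 ≤ 2 * K := by linarith
        _ ≤ (n : ℝ) ^ (c / (2 * (k + 1))) * (n : ℝ) ^ (c / (2 * (k + 1))) := by gcongr
        _ = (n : ℝ) ^ (c / (k + 1)) := by
          rw [← Real.rpow_add hn0]; congr 1; field_simp; ring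
    calc ((K : ℝ) + 1) ^ (k + 1) ≤ ((n : ℝ) ^ (c / (k + 1))) ^ (k + 1) := by gcongr
      _ = (n : ℝ) ^ c := by
        rw [← Real.rpow_natCast, ← Real.rpow_mul hn0.le]
        congr 1; push_cast; field_simp
  induction k with
  | zero =>
    obtain ⟨δ, hδ, n0, h⟩ := step κ hκ 0
    refine ⟨δ, hδ, n0, ?_⟩
    intro n K hn hno hK hKn hA P hPk hP
    have hPe : P = ∅ := Finset.card_eq_zero.1 (by omega)
    subst hPe
    exact h n K hn hno hK hKn hA ∅ hPk (by simp)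
  | succ k ih =>
    obtain ⟨δ1, hδ1, n1, h1⟩ := ih
    set γ : ℝ := min (δ1 / 2) κ with hγ
    have hγ0 : 0 < γ := lt_min (by positivity) hκ
    obtain ⟨δ2, hδ2, n2, h2⟩ := step γ hγ0 (k + 1)
    refine ⟨min (δ1 / 2) δ2, by positivity, n1 + n2, ?_⟩
    intro n K hn hno hK hKn hA P hPk hP
    have hn' : 1 ≤ n := hno.pos
    have hn1 : (1 : ℝ) ≤ n := by exact_mod_cast hn'
    have hn0 : (0 : ℝ) < n := by linarith
    have hK1 : (K : ℝ) ≤ (n : ℝ) ^ (δ1 / 2) :=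
      hKn.trans (Real.rpow_le_rpow_of_exponent_le hn1 (min_le_left _ _))
    have hK2 : (K : ℝ) ≤ (n : ℝ) ^ δ2 :=
      hKn.trans (Real.rpow_le_rpow_of_exponent_le hn1 (min_le_right _ _))
    by_cases hall : ∀ p ∈ P, p.Prime ∧ (n : ℝ) ^ γ ≤ (orderOf (2 : ZMod p) : ℝ)
    · exact h2 n K (by omega) hno hK hK2 hA P hPk hall
    · push Not at hall
      obtain ⟨p, hp, hpo⟩ := hall
      obtain ⟨hpp, hpA⟩ := hP p hp
      have hpo' := hpo hpp
      have hcard : (P.erase p).card ≤ k := by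
        rw [Finset.card_erase_of_mem hp]; omega
      have hAp : Adm n (orderOf (2 : ZMod p)) := by
        rcases hpA with h | h
        · exact h
        · exfalso
          have : (n : ℝ) ^ γ ≤ (n : ℝ) ^ κ := Real.rpow_le_rpow_of_exponent_le hn1 (min_le_right _ _)
          linarith
      rcases Nat.eq_zero_or_pos (orderOf (2 : ZMod p)) with h0 | h0
      · -- `p = 2`
        have hp2 : p = 2 := by
          by_contra hne
          have : Fact p.Prime := ⟨hpp⟩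
          have h2ne : (2 : ZMod p) ≠ 0 := by
            intro h
            have h' : ((2 : ℕ) : ZMod p) = 0 := by exact_mod_cast h
            rw [ZMod.natCast_eq_zero_iff] at h'
            exact hne ((Nat.prime_dvd_prime_iff_eq hpp Nat.prime_two).1 h')
          obtain ⟨u, hu⟩ := isUnit_iff_ne_zero.2 h2ne
          rw [← hu, orderOf_units] at h0
          have := orderOf_pos u
          omega
        obtain ⟨S, hS, hS'⟩ := h1 n K (by omega) hno hK
          (hK1.trans (Real.rpow_le_rpow_of_exponent_le hn1 (by linarith))) hA (P.erase p) hcard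
          (fun q hq => hP q (Finset.mem_of_mem_erase hq))
        refine ⟨S, hS, ?_⟩
        intro x y z w ht
        obtain ⟨g1, g2, g3⟩ := hS' x y z w ht
        refine ⟨g1, g2, ?_⟩
        intro q hq hd
        by_cases hqp : q = p
        · rw [hqp, hp2] at hd
          have := Nat.dvd_gcd hd (Dvd.intro _ rfl : 2 ∣ 2 * (2 ^ K - 1))
          rw [Nat.Coprime] at g2
          rw [g2] at this
          omega
        · exact g3 q (Finset.mem_erase.2 ⟨hqp, hq⟩) hd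
      · set m := orderOf (2 : ZMod p) with hm
        have hle : Nat.lcm K m ≤ K * m := Nat.le_of_dvd (Nat.mul_pos hK h0) (Nat.lcm_dvd_mul K m)
        have hKm : ((Nat.lcm K m : ℕ) : ℝ) ≤ (n : ℝ) ^ δ1 := by
          have hle' : ((Nat.lcm K m : ℕ) : ℝ) ≤ (K : ℝ) * m := by exact_mod_cast hle
          calc ((Nat.lcm K m : ℕ) : ℝ) ≤ (K : ℝ) * m := hle'
            _ ≤ (n : ℝ) ^ (δ1 / 2) * (n : ℝ) ^ (δ1 / 2) := by
                apply mul_le_mul hK1 _ (by positivity) (by positivity)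
                exact hpo'.le.trans (Real.rpow_le_rpow_of_exponent_le hn1 (min_le_left _ _))
            _ = _ := by rw [← Real.rpow_add hn0]; congr 1; ring
        obtain ⟨S, hS, hS'⟩ := h1 n (Nat.lcm K m) (by omega) hno (Nat.lcm_pos hK h0) hKm
          (adm_lcm n K m hK.ne' h0.ne' hA hAp) (P.erase p) hcard
          (fun q hq => hP q (Finset.mem_of_mem_erase hq))
        refine ⟨S, hS, ?_⟩
        intro x y z w ht
        obtain ⟨g1, g2, g3⟩ := hS' x y z w ht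
        have d1 : 2 ^ K - 1 ∣ 2 ^ (Nat.lcm K m) - 1 := by
          have := Nat.pow_sub_pow_dvd_pow_sub_pow 2 1 (Nat.dvd_lcm_left K m)
          simpa using this
        refine ⟨g1, g2.coprime_dvd_right (Nat.mul_dvd_mul_left 2 d1), ?_⟩
        intro q hq hd
        by_cases hqp : q = p
        · rw [hqp] at hd
          have d2 : p ∣ 2 ^ (Nat.lcm K m) - 1 := by
            rw [← ZMod.natCast_eq_zero_iff, Nat.cast_sub Nat.one_le_two_pow]
            push_cast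
            obtain ⟨t, ht⟩ := Nat.dvd_lcm_right K m
            rw [ht, pow_mul, hm, pow_orderOf_eq_one, one_pow, sub_self]
          have := Nat.dvd_gcd hd (d2.mul_left 2)
          rw [Nat.Coprime] at g2
          rw [g2] at this
          exact hpp.one_lt.ne' (Nat.dvd_one.1 this)
        · exact g3 q (Finset.mem_erase.2 ⟨hqp, hq⟩) hd

end Pool.Agent.Q255.CV
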