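import Pool.Agent.TH696.FA.Orth

/-!
# Powers of a rational rotation that is the identity modulo `D`
-/

set_option autoImplicit false
open Finset

namespace Pool.Agent.Q255.CV

/-- real and imaginary part of `(P + Q i) ^ j` -/
def cs (P Q : ℤ) : ℕ → ℤ × ℤ
  | 0 => (1, 0)
  | j + 1 => (P * (cs P Q j).1 - Q * (cs P Q j).2, Q * (cs P Q j).1 + P * (cs P Q j).2)

/-- the real part -/
def C (P Q : ℤ) (j : ℕ) : ℤ := (cs P Q j).1
/-- the imaginary part -/
def S (P Q : ℤ) (j : ℕ) : ℤ := (cs P Q j).2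

lemma C_zero (P Q : ℤ) : C P Q 0 = 1 := rfl
lemma S_zero (P Q : ℤ) : S P Q 0 = 0 := rfl
lemma C_succ (P Q : ℤ) (j : ℕ) : C P Q (j + 1) = P * C P Q j - Q * S P Q j := rfl
lemma S_succ (P Q : ℤ) (j : ℕ) : S P Q (j + 1) = Q * C P Q j + P * S P Q j := rfl

lemma norm_cs (P Q N : ℤ) (h : P ^ 2 + Q ^ 2 = N ^ 2) (j : ℕ) : C P Q j ^ 2 + S P Q j ^ 2 = (N ^ j) ^ 2 := by
  induction j with
  | zero => simp [C_zero, S_zero]
  | succ j ih =>
    rw [C_succ, S_succ]
    have e : (N ^ (j + 1)) ^ 2 = N ^ 2 * (N ^ j) ^ 2 := by ring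
    rw [e, ← ih, ← h]
    ring

lemma congr_cs (P Q N D : ℤ) (h1 : D ∣ P - N) (h2 : D ∣ Q) (j : ℕ) : D ∣ C P Q j - N ^ j ∧ D ∣ S P Q j := by
  induction j with
  | zero => simp [C_zero, S_zero]
  | succ j ih =>
    rw [C_succ, S_succ]
    refine ⟨?_, ?_⟩
    · have e : P * C P Q j - Q * S P Q j - N ^ (j + 1) = P * (C P Q j - N ^ j) - Q * S P Q j + N ^ j * (P - N) := by ring
      rw [e]
      exact dvd_add (dvd_sub (ih.1.mul_left _) (h2.mul_right _)) (h1.mul_left _)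
    · exact dvd_add (h2.mul_right _) (ih.2.mul_left _)

lemma add_cs (P Q : ℤ) (i j : ℕ) : C P Q (i + j) = C P Q i * C P Q j - S P Q i * S P Q j ∧
    S P Q (i + j) = S P Q i * C P Q j + C P Q i * S P Q j := by
  induction j with
  | zero => simp [C_zero, S_zero]
  | succ j ih =>
    rw [← add_assoc, C_succ, S_succ, C_succ, S_succ, ih.1, ih.2]
    constructor <;> ring

lemma det_cs (P Q N : ℤ) (h : P ^ 2 + Q ^ 2 = N ^ 2) (e r : ℕ) :
    S P Q (e + r) * C P Q e - C P Q (e + r) * S P Q e = (N ^ e) ^ 2 * S P Q r := by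
  rw [(add_cs P Q e r).1, (add_cs P Q e r).2, ← norm_cs P Q N h e]
  ring

lemma mod_cs (P Q N : ℤ) (h : P ^ 2 + Q ^ 2 = N ^ 2) (j : ℕ) :
    N ∣ C P Q (j + 1) - 2 ^ j * P ^ (j + 1) ∧ N ∣ S P Q (j + 1) - 2 ^ j * P ^ j * Q := by
  induction j with
  | zero => simp [C_succ, S_succ, C_zero, S_zero]
  | succ j ih =>
    obtain ⟨⟨a, ha⟩, ⟨b, hb⟩⟩ := ih
    rw [C_succ P Q (j + 1), S_succ P Q (j + 1)]
    refine ⟨⟨P * a - Q * b - 2 ^ j * P ^ j * N, ?_⟩, ⟨Q * a + P * b, ?_⟩⟩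
    · have e1 : C P Q (j + 1) = N * a + 2 ^ j * P ^ (j + 1) := by linear_combination ha
      have e2 : S P Q (j + 1) = N * b + 2 ^ j * P ^ j * Q := by linear_combination hb
      rw [e1, e2]
      have e3 : Q ^ 2 = N ^ 2 - P ^ 2 := by linear_combination h
      have e4 : Q * (N * b + 2 ^ j * P ^ j * Q) = Q * N * b + 2 ^ j * P ^ j * Q ^ 2 := by ring
      rw [e4, e3]
      ring
    · have e1 : C P Q (j + 1) = N * a + 2 ^ j * P ^ (j + 1) := by linear_combination ha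
      have e2 : S P Q (j + 1) = N * b + 2 ^ j * P ^ j * Q := by linear_combination hb
      rw [e1, e2]
      ring

lemma S_coprime (P Q N : ℤ) (h : P ^ 2 + Q ^ 2 = N ^ 2) (hQ : IsCoprime Q N) (h2 : IsCoprime 2 N) (j : ℕ) :
    IsCoprime (S P Q (j + 1)) N := by
  obtain ⟨b, hb⟩ := (mod_cs P Q N h j).2
  have hP : IsCoprime P N := by
    have h1 : IsCoprime (Q ^ 2) N := hQ.pow_left
    have h3 : IsCoprime (P ^ 2) N := by
      have e : P ^ 2 = -(Q ^ 2) + N * N := by linear_combination h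
      rw [e]
      exact (h1.neg_left).add_mul_left_left N
    exact (IsCoprime.pow_left_iff (by norm_num)).1 h3
  have e : S P Q (j + 1) = 2 ^ j * P ^ j * Q + N * b := by linear_combination hb
  rw [e]
  exact (((h2.pow_left).mul_left hP.pow_left).mul_left hQ).add_mul_left_left b

lemma S_ne (P Q N : ℤ) (h : P ^ 2 + Q ^ 2 = N ^ 2) (hQ : IsCoprime Q N) (h2 : IsCoprime 2 N) (hN : 1 < N)
    (j : ℕ) : S P Q (j + 1) ≠ 0 := by
  intro h0
  have := S_coprime P Q N h hQ h2 j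
  rw [h0] at this
  have := isCoprime_zero_left.1 this
  rcases Int.isUnit_iff.1 this with h | h <;> omega

/-- one of the rotations with exponent in `[c, c + 4]` brings a vector to the first quadrant -/
lemma coverE (P Q N : ℤ) (h : P ^ 2 + Q ^ 2 = N ^ 2) (hN : 0 < N) (hP : 0 ≤ P) (hQ : 3 * P ≤ Q) (c : ℕ) (x y : ℤ) :
    ∃ e : ℕ, c ≤ e ∧ e ≤ c + 4 ∧ 0 ≤ C P Q e * x - S P Q e * y ∧ 0 ≤ S P Q e * x + C P Q e * y := by
  obtain ⟨k, hk1, hk2⟩ := TH696.FA.cover P Q N hN.le hP hQ (C P Q (c + 2) * x - S P Q (c + 2) * y)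
    (S P Q (c + 2) * x + C P Q (c + 2) * y)
  have hN2 : 0 < N ^ 2 := by positivity
  have hN4 : 0 < N ^ 4 := by positivity
  have hN3 : 0 < N ^ 3 := by positivity
  have hQ2 : Q ^ 2 = N ^ 2 - P ^ 2 := by linear_combination h
  fin_cases k
  · simp only [TH696.FA.rc, TH696.FA.rs] at hk1 hk2
    refine ⟨c + 2, by omega, by omega, ?_, ?_⟩
    · exact le_of_mul_le_mul_left (by linarith) hN2
    · exact le_of_mul_le_mul_left (by linarith) hN2
  · simp only [TH696.FA.rc, TH696.FA.rs] at hk1 hk2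
    refine ⟨c + 3, by omega, by omega, ?_, ?_⟩
    · apply le_of_mul_le_mul_left _ hN
      rw [C_succ P Q (c + 2), S_succ P Q (c + 2)]
      linarith
    · apply le_of_mul_le_mul_left _ hN
      rw [C_succ P Q (c + 2), S_succ P Q (c + 2)]
      linarith
  · simp only [TH696.FA.rc, TH696.FA.rs] at hk1 hk2
    refine ⟨c + 1, by omega, by omega, ?_, ?_⟩
    · apply le_of_mul_le_mul_left _ hN3
      rw [C_succ P Q (c + 1), S_succ P Q (c + 1)] at hk1
      have e : N ^ 3 * (C P Q (c + 1) * x - S P Q (c + 1) * y) =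
        N * P * ((P * C P Q (c + 1) - Q * S P Q (c + 1)) * x - (Q * C P Q (c + 1) + P * S P Q (c + 1)) * y) -
        -(N * Q) * ((Q * C P Q (c + 1) + P * S P Q (c + 1)) * x + (P * C P Q (c + 1) - Q * S P Q (c + 1)) * y) := by
        linear_combination (-N * (C P Q (c + 1) * x - S P Q (c + 1) * y)) * h
      rw [e]; linarith
    · apply le_of_mul_le_mul_left _ hN3
      rw [C_succ P Q (c + 1), S_succ P Q (c + 1)] at hk2
      have e : N ^ 3 * (S P Q (c + 1) * x + C P Q (c + 1) * y) =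
        -(N * Q) * ((P * C P Q (c + 1) - Q * S P Q (c + 1)) * x - (Q * C P Q (c + 1) + P * S P Q (c + 1)) * y) +
        N * P * ((Q * C P Q (c + 1) + P * S P Q (c + 1)) * x + (P * C P Q (c + 1) - Q * S P Q (c + 1)) * y) := by
        linear_combination (-N * (S P Q (c + 1) * x + C P Q (c + 1) * y)) * h
      rw [e]; linarith
  · simp only [TH696.FA.rc, TH696.FA.rs] at hk1 hk2
    refine ⟨c + 4, by omega, by omega, ?_, ?_⟩
    · rw [C_succ P Q (c + 3), S_succ P Q (c + 3), C_succ P Q (c + 2), S_succ P Q (c + 2)]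
      linarith
    · rw [C_succ P Q (c + 3), S_succ P Q (c + 3), C_succ P Q (c + 2), S_succ P Q (c + 2)]
      linarith
  · simp only [TH696.FA.rc, TH696.FA.rs] at hk1 hk2
    refine ⟨c, by omega, by omega, ?_, ?_⟩
    · apply le_of_mul_le_mul_left _ hN4
      rw [C_succ P Q (c + 1), S_succ P Q (c + 1), C_succ P Q c, S_succ P Q c] at hk1
      have e : N ^ 4 * (C P Q c * x - S P Q c * y) = (P ^ 2 + Q ^ 2) ^ 2 * (C P Q c * x - S P Q c * y) := by
        rw [h]; ring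
      rw [e]; linarith
    · apply le_of_mul_le_mul_left _ hN4
      rw [C_succ P Q (c + 1), S_succ P Q (c + 1), C_succ P Q c, S_succ P Q c] at hk2
      have e : N ^ 4 * (S P Q c * x + C P Q c * y) = (P ^ 2 + Q ^ 2) ^ 2 * (S P Q c * x + C P Q c * y) := by
        rw [h]; ring
      rw [e]; linarith

/-- the rotated coordinates, with the total scale `T` -/
def Y0 (P Q N : ℤ) (T e : ℕ) (a b : ℤ) : ℤ := N ^ (T - e) * (C P Q e * a - S P Q e * b)
/-- the rotated coordinates, with the total scale `T` -/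
def Y1 (P Q N : ℤ) (T e : ℕ) (a b : ℤ) : ℤ := N ^ (T - e) * (S P Q e * a + C P Q e * b)

lemma Y_sq (P Q N : ℤ) (h : P ^ 2 + Q ^ 2 = N ^ 2) (T e : ℕ) (he : e ≤ T) (a b : ℤ) :
    Y0 P Q N T e a b ^ 2 + Y1 P Q N T e a b ^ 2 = (N ^ T * a) ^ 2 + (N ^ T * b) ^ 2 := by
  have h1 := norm_cs P Q N h e
  have h2 : N ^ T = N ^ (T - e) * N ^ e := by rw [← pow_add]; congr 1; omega
  unfold Y0 Y1
  rw [h2]
  linear_combination (N ^ (T - e)) ^ 2 * (a ^ 2 + b ^ 2) * h1

lemma Y_congr (P Q N D : ℤ) (h1 : D ∣ P - N) (h2 : D ∣ Q) (T e : ℕ) (he : e ≤ T) (a b : ℤ) :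
    D ∣ Y0 P Q N T e a b - N ^ T * a ∧ D ∣ Y1 P Q N T e a b - N ^ T * b := by
  obtain ⟨g1, g2⟩ := congr_cs P Q N D h1 h2 e
  have h2 : N ^ T = N ^ (T - e) * N ^ e := by rw [← pow_add]; congr 1; omega
  unfold Y0 Y1
  rw [h2]
  constructor
  · have e1 : N ^ (T - e) * (C P Q e * a - S P Q e * b) - N ^ (T - e) * N ^ e * a =
      N ^ (T - e) * ((C P Q e - N ^ e) * a - S P Q e * b) := by ring
    rw [e1]
    exact (dvd_sub (g1.mul_right _) (g2.mul_right _)).mul_left _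
  · have e1 : N ^ (T - e) * (S P Q e * a + C P Q e * b) - N ^ (T - e) * N ^ e * b =
      N ^ (T - e) * (S P Q e * a + (C P Q e - N ^ e) * b) := by ring
    rw [e1]
    exact (dvd_add (g2.mul_right _) (g1.mul_right _)).mul_left _

lemma Y_inj (P Q N : ℤ) (h : P ^ 2 + Q ^ 2 = N ^ 2) (hN : 0 < N) (T e : ℕ) (a b a' b' : ℤ)
    (h0 : Y0 P Q N T e a b = Y0 P Q N T e a' b') (h1 : Y1 P Q N T e a b = Y1 P Q N T e a' b') :
    a = a' ∧ b = b' := by
  unfold Y0 at h0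
  unfold Y1 at h1
  have hne : N ^ (T - e) ≠ 0 := by positivity
  have g0 := mul_left_cancel₀ hne h0
  have g1 := mul_left_cancel₀ hne h1
  exact TH696.FA.rot_inj (C P Q e) (S P Q e) ((N ^ e) ^ 2) (by positivity) (norm_cs P Q N h e) _ _ _ _ g0 g1

lemma Y_inj2 (P Q N : ℤ) (h : P ^ 2 + Q ^ 2 = N ^ 2) (hN : 1 < N) (hQ : IsCoprime Q N) (h2 : IsCoprime 2 N)
    (T e e' : ℕ) (he : e < e') (a b a' b' : ℤ)
    (h0 : Y0 P Q N T e a b = Y0 P Q N T e a' b') (h1 : Y0 P Q N T e' a b = Y0 P Q N T e' a' b') :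
    a = a' ∧ b = b' := by
  unfold Y0 at h0 h1
  have hN0 : 0 < N := by omega
  have g0 := mul_left_cancel₀ (show N ^ (T - e) ≠ 0 by positivity) h0
  have g1 := mul_left_cancel₀ (show N ^ (T - e') ≠ 0 by positivity) h1
  obtain ⟨r, rfl⟩ : ∃ r, e' = e + (r + 1) := ⟨e' - e - 1, by omega⟩
  have hd := det_cs P Q N h e (r + 1)
  have hne : (N ^ e) ^ 2 * S P Q (r + 1) ≠ 0 := mul_ne_zero (by positivity) (S_ne P Q N h hQ h2 hN r)
  constructor
  · apply mul_left_cancel₀ hne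
    rw [← hd]
    linear_combination S P Q (e + (r + 1)) * g0 - S P Q e * g1
  · apply mul_left_cancel₀ hne
    rw [← hd]
    linear_combination C P Q (e + (r + 1)) * g0 - C P Q e * g1

end Pool.Agent.Q255.CV
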